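import Pool.Agent.helper64.OT.SpecG
import Pool.Agent.helper47.SPI.Fin

set_option autoImplicit false

namespace Pool.Agent.OG

open Finset Pool.Agent.OT Pool.Agent.SPI Pool.Agent.helper85.PG
open scoped Pointwise

/-- phases -/
theorem UNH_phase {ι : Type*} (X : Finset ι) (f : ι → ℂ) :
    ∃ α : ι → ℂ, (∀ x, ‖α x‖ ≤ 1) ∧ ∑ x ∈ X, ‖f x‖ = ‖∑ x ∈ X, α x * f x‖ := by
  classical
  refine ⟨fun x => (starRingEnd ℂ) (f x) / (‖f x‖ : ℂ), ?_, ?_⟩
  · intro x
    rcases eq_or_ne (f x) 0 with h | h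
    · simp [h]
    · have h1 : ‖f x‖ ≠ 0 := norm_ne_zero_iff.2 h
      rw [norm_div, RCLike.norm_conj, Complex.norm_real, norm_norm, div_self h1]
  · have e : ∀ x, (starRingEnd ℂ) (f x) / (‖f x‖ : ℂ) * f x = ((‖f x‖ : ℝ) : ℂ) := by
      intro x
      rcases eq_or_ne (f x) 0 with h | h
      · simp [h]
      · have h1 : ((‖f x‖ : ℝ) : ℂ) ≠ 0 := by
          exact_mod_cast norm_ne_zero_iff.2 h
        rw [div_mul_eq_mul_div, div_eq_iff h1]
        rw [mul_comm, Complex.mul_conj, Complex.normSq_eq_norm_sq]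
        push_cast
        ring
    simp_rw [e]
    rw [← Complex.ofReal_sum, Complex.norm_real, Real.norm_of_nonneg]
    exact Finset.sum_nonneg fun x _ => norm_nonneg _

/-- the sets `BY` -/
theorem UNH_sum {p : ℕ} (J B : Finset (ZMod p)) (cl : ZMod p → ZMod p) (h : ∀ b ∈ B, cl b ∈ J) :
    ∑ y ∈ J, (BY B cl y).card = B.card :=
  (Finset.card_eq_sum_card_fiberwise (f := cl) (s := B) (t := J) h).symm

theorem UNH_cell {p : ℕ} (Q B : Finset (ZMod p)) (cl : ZMod p → ZMod p) (h : ∀ b ∈ B, b - cl b ∈ Q) (y : ZMod p) :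
    (BY B cl y).card ≤ Q.card := by
  refine Finset.card_le_card_of_injOn (fun b => b - y) ?_ ?_
  · intro b hb
    unfold BY at hb
    rw [Finset.mem_coe, mem_filter] at hb
    have := h b hb.1
    rw [hb.2] at this
    exact this
  · intro b _ b' _ h'
    exact sub_left_injective h'

/-- the numbers -/
theorem UNH_num (p P1 S J V Bc M Q D th κ κ₀ δ ε : ℝ) (d : ℕ) (hp : 1 ≤ p) (hS : 0 < S) (hJ : 1 ≤ J) (hV : 0 < V) (hBc : 0 ≤ Bc)
    (hD : 1 ≤ D) (hP1 : 0 ≤ P1) (hth : th = p ^ (-κ₀)) (hκ₀ : 0 < κ₀)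
    (hpS : p ≤ D * P1 * S) (hPJ : P1 * J ≤ p ^ (1 - ε)) (hPV : P1 ≤ (1 + 2 * 1 / (th / 2)) ^ d * V)
    (hMJ : M * J ≤ Bc) (hQ : Q ≤ 2 * M * Bc) (hQ0 : 0 ≤ Q) (hJδ : p ^ δ ≤ J)
    (hB1 : p ^ (1 / 2 - κ / 8) ≤ Bc) (hκε : κ + κ / 8 ≤ ε) (hκκ : κ + κ / 8 ≤ 2 * κ₀) (hκδ : κ ≤ δ / 4)
    (hδ : κ₀ * d ≤ δ / 2) :
    4 * (p / S) * J * Bc + 32 * Real.sqrt p * Real.sqrt (D * p * J / (V * S)) * Q + 4 * (2 * th) ^ 2 * p * Bc ≤
      (4 * D + 64 * D * 5 ^ d + 16) * p ^ (1 / 2 - κ) * Bc ^ 2 := by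
  have hp0 : 0 < p := by linarith
  have hJ0 : 0 < J := by linarith
  have hth0 : 0 < th := by rw [hth]; positivity
  have hth1 : th ≤ 1 := by
    rw [hth]
    exact Real.rpow_le_one_of_one_le_of_nonpos hp (by linarith)
  have key : ∀ e : ℝ, e ≤ 1 - κ - κ / 8 → p ^ e * Bc ≤ p ^ (1 / 2 - κ) * Bc ^ 2 := by
    intro e he
    have e1 : p ^ e ≤ p ^ (1 / 2 - κ) * p ^ (1 / 2 - κ / 8) := by
      rw [← Real.rpow_add hp0]
      exact Real.rpow_le_rpow_of_exponent_le hp (by linarith)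
    calc p ^ e * Bc ≤ (p ^ (1 / 2 - κ) * p ^ (1 / 2 - κ / 8)) * Bc := mul_le_mul_of_nonneg_right e1 hBc
      _ ≤ (p ^ (1 / 2 - κ) * Bc) * Bc := mul_le_mul_of_nonneg_right (mul_le_mul_of_nonneg_left hB1 (by positivity)) hBc
      _ = p ^ (1 / 2 - κ) * Bc ^ 2 := by ring
  have h1 : 4 * (p / S) * J * Bc ≤ 4 * D * (p ^ (1 / 2 - κ) * Bc ^ 2) := by
    have e1 : p / S ≤ D * P1 := by
      rw [div_le_iff₀ hS]
      exact hpS
    have e2 : p ^ (1 - ε) * Bc ≤ p ^ (1 / 2 - κ) * Bc ^ 2 := key _ (by linarith)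
    calc 4 * (p / S) * J * Bc ≤ 4 * (D * P1) * J * Bc := by
          apply mul_le_mul_of_nonneg_right _ hBc
          apply mul_le_mul_of_nonneg_right _ hJ0.le
          linarith
      _ = 4 * D * (P1 * J * Bc) := by ring
      _ ≤ 4 * D * (p ^ (1 - ε) * Bc) := by
          apply mul_le_mul_of_nonneg_left _ (by positivity)
          exact mul_le_mul_of_nonneg_right hPJ hBc
      _ ≤ 4 * D * (p ^ (1 / 2 - κ) * Bc ^ 2) := mul_le_mul_of_nonneg_left e2 (by positivity)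
  have h3 : 4 * (2 * th) ^ 2 * p * Bc ≤ 16 * (p ^ (1 / 2 - κ) * Bc ^ 2) := by
    have e1 : 4 * (2 * th) ^ 2 * p * Bc = 16 * (p ^ (1 - 2 * κ₀) * Bc) := by
      have e2 : th ^ 2 * p = p ^ (1 - 2 * κ₀) := by
        rw [hth, ← Real.rpow_natCast, ← Real.rpow_mul hp0.le]
        nth_rewrite 2 [← Real.rpow_one p]
        rw [← Real.rpow_add hp0]
        congr 1
        push_cast
        ring
      calc 4 * (2 * th) ^ 2 * p * Bc = 16 * (th ^ 2 * p * Bc) := by ring
        _ = 16 * (p ^ (1 - 2 * κ₀) * Bc) := by rw [e2]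
    rw [e1]
    exact mul_le_mul_of_nonneg_left (key _ (by linarith)) (by norm_num)
  have h2 : 32 * Real.sqrt p * Real.sqrt (D * p * J / (V * S)) * Q ≤ 64 * D * 5 ^ d * (p ^ (1 / 2 - κ) * Bc ^ 2) := by
    have hA : P1 ≤ 5 ^ d * p ^ (κ₀ * d) * V := by
      refine hPV.trans (mul_le_mul_of_nonneg_right ?_ hV.le)
      have e1 : 1 + 2 * 1 / (th / 2) ≤ 5 / th := by
        rw [le_div_iff₀ hth0]
        have : (1 + 2 * 1 / (th / 2)) * th = th + 4 := by
          field_simp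
          ring
        rw [this]
        linarith
      have e2 : (0 : ℝ) ≤ 1 + 2 * 1 / (th / 2) := by positivity
      calc (1 + 2 * 1 / (th / 2)) ^ d ≤ (5 / th) ^ d := pow_le_pow_left₀ e2 e1 d
        _ = 5 ^ d * p ^ (κ₀ * d) := by
          have e3 : (5 : ℝ) / th = 5 * p ^ κ₀ := by
            rw [hth, Real.rpow_neg hp0.le, div_inv_eq_mul]
          rw [e3, mul_pow, ← Real.rpow_natCast (p ^ κ₀), ← Real.rpow_mul hp0.le]
    have hBB : D * p * J / (V * S) ≤ (D * 5 ^ d) ^ 2 * (p ^ (κ₀ * d) * J) := by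
      have hVS : 0 < V * S := by positivity
      rw [div_le_iff₀ hVS]
      have e1 : p ≤ D * (5 ^ d * p ^ (κ₀ * d) * V) * S := by
        refine hpS.trans (mul_le_mul_of_nonneg_right ?_ hS.le)
        exact mul_le_mul_of_nonneg_left hA (by linarith)
      have e5 : (1 : ℝ) ≤ 5 ^ d := one_le_pow₀ (by norm_num)
      calc D * p * J ≤ D * (D * (5 ^ d * p ^ (κ₀ * d) * V) * S) * J := by
            apply mul_le_mul_of_nonneg_right _ hJ0.le
            exact mul_le_mul_of_nonneg_left e1 (by linarith)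
        _ = D ^ 2 * 5 ^ d * (p ^ (κ₀ * d) * J * (V * S)) := by ring
        _ ≤ D ^ 2 * (5 ^ d * 5 ^ d) * (p ^ (κ₀ * d) * J * (V * S)) := by
            apply mul_le_mul_of_nonneg_right _ (by positivity)
            apply mul_le_mul_of_nonneg_left _ (by positivity)
            nlinarith
        _ = (D * 5 ^ d) ^ 2 * (p ^ (κ₀ * d) * J) * (V * S) := by ring
    have hC : Real.sqrt (D * p * J / (V * S)) ≤ D * 5 ^ d * (p ^ (δ / 4) * Real.sqrt J) := by
      refine (Real.sqrt_le_sqrt hBB).trans ?_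
      rw [Real.sqrt_mul (by positivity), Real.sqrt_sq (by positivity), Real.sqrt_mul (by positivity)]
      apply mul_le_mul_of_nonneg_left _ (by positivity)
      apply mul_le_mul_of_nonneg_right _ (Real.sqrt_nonneg _)
      rw [Real.sqrt_eq_rpow, ← Real.rpow_mul hp0.le]
      exact Real.rpow_le_rpow_of_exponent_le hp (by linarith)
    have hQJ : Q * J ≤ 2 * Bc ^ 2 := by
      calc Q * J ≤ 2 * M * Bc * J := mul_le_mul_of_nonneg_right hQ hJ0.le
        _ = 2 * (M * J) * Bc := by ring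
        _ ≤ 2 * Bc * Bc := by nlinarith
        _ = 2 * Bc ^ 2 := by ring
    have e3 : p ^ (κ + δ / 4) ≤ Real.sqrt J := by
      have e4 : p ^ (κ + δ / 4) ≤ p ^ (δ / 2) := Real.rpow_le_rpow_of_exponent_le hp (by linarith)
      refine e4.trans ?_
      apply Real.le_sqrt_of_sq_le
      rw [← Real.rpow_mul_natCast hp0.le]
      have : δ / 2 * ((2 : ℕ) : ℝ) = δ := by
        push_cast
        ring
      rw [this]
      exact hJδ
    have e5 : Real.sqrt p * p ^ (δ / 4) = p ^ (1 / 2 - κ) * p ^ (κ + δ / 4) := by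
      rw [Real.sqrt_eq_rpow, ← Real.rpow_add hp0, ← Real.rpow_add hp0]
      congr 1
      ring
    have hs : Real.sqrt J * Real.sqrt J = J := Real.mul_self_sqrt hJ0.le
    have hsJ : 0 ≤ Real.sqrt J := Real.sqrt_nonneg J
    calc 32 * Real.sqrt p * Real.sqrt (D * p * J / (V * S)) * Q
        ≤ 32 * Real.sqrt p * (D * 5 ^ d * (p ^ (δ / 4) * Real.sqrt J)) * Q := by
          apply mul_le_mul_of_nonneg_right _ hQ0
          exact mul_le_mul_of_nonneg_left hC (by positivity)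
      _ = 32 * D * 5 ^ d * ((Real.sqrt p * p ^ (δ / 4)) * Real.sqrt J * Q) := by ring
      _ = 32 * D * 5 ^ d * (p ^ (1 / 2 - κ) * (p ^ (κ + δ / 4) * Real.sqrt J * Q)) := by rw [e5]; ring
      _ ≤ 32 * D * 5 ^ d * (p ^ (1 / 2 - κ) * (Real.sqrt J * Real.sqrt J * Q)) := by
          apply mul_le_mul_of_nonneg_left _ (by positivity)
          apply mul_le_mul_of_nonneg_left _ (by positivity)
          apply mul_le_mul_of_nonneg_right _ hQ0
          exact mul_le_mul_of_nonneg_right e3 hsJ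
      _ = 32 * D * 5 ^ d * (p ^ (1 / 2 - κ) * (Q * J)) := by rw [hs]; ring
      _ ≤ 32 * D * 5 ^ d * (p ^ (1 / 2 - κ) * (2 * Bc ^ 2)) := by
          apply mul_le_mul_of_nonneg_left _ (by positivity)
          exact mul_le_mul_of_nonneg_left hQJ (by positivity)
      _ = 64 * D * 5 ^ d * (p ^ (1 / 2 - κ) * Bc ^ 2) := by ring
  calc 4 * (p / S) * J * Bc + 32 * Real.sqrt p * Real.sqrt (D * p * J / (V * S)) * Q + 4 * (2 * th) ^ 2 * p * Bc
      ≤ 4 * D * (p ^ (1 / 2 - κ) * Bc ^ 2) + 64 * D * 5 ^ d * (p ^ (1 / 2 - κ) * Bc ^ 2) +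
        16 * (p ^ (1 / 2 - κ) * Bc ^ 2) := add_le_add (add_le_add h1 h2) h3
    _ = (4 * D + 64 * D * 5 ^ d + 16) * p ^ (1 / 2 - κ) * Bc ^ 2 := by ring

theorem UNH (hMEH : MEH_stmt) (hD1S : D1S_stmt) (hDSY : DSY_stmt) (hANG : ANG_stmt) (hPKC : PKC_stmt) : UNH_stmt := by
  classical
  intro d ε hε
  obtain ⟨δ₁, p₁, hδ₁, hFIT⟩ := Pool.Agent.SPI.p_FIT (5 ^ d) (ε / 2) (by positivity)
  obtain ⟨D, hD1, hD⟩ := hDSY d
  have hd0 : (0 : ℝ) ≤ d := Nat.cast_nonneg d
  obtain ⟨κ₀, hκ₀⟩ : ∃ κ₀ : ℝ, κ₀ = min (δ₁ / (2 * d + 2)) (ε / (2 * d + 2)) := ⟨_, rfl⟩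
  have hκ₀0 : 0 < κ₀ := by
    rw [hκ₀]
    apply lt_min <;> positivity
  have hκ₀δ : κ₀ * d ≤ δ₁ / 2 := by
    have h1 : κ₀ ≤ δ₁ / (2 * d + 2) := by
      rw [hκ₀]
      exact min_le_left _ _
    rw [le_div_iff₀ (by positivity)] at h1
    nlinarith
  have hκ₀ε : κ₀ * d ≤ ε / 2 := by
    have h1 : κ₀ ≤ ε / (2 * d + 2) := by
      rw [hκ₀]
      exact min_le_right _ _
    rw [le_div_iff₀ (by positivity)] at h1
    nlinarith
  obtain ⟨κ, hκ⟩ : ∃ κ : ℝ, κ = min (δ₁ / 8) (min (ε / 2) κ₀) := ⟨_, rfl⟩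
  have hκ0 : 0 < κ := by
    rw [hκ]
    exact lt_min (by positivity) (lt_min (by positivity) hκ₀0)
  have hκ1 : κ ≤ δ₁ / 8 := by
    rw [hκ]
    exact min_le_left _ _
  have hκ2 : κ ≤ ε / 2 := by
    rw [hκ]
    exact (min_le_right _ _).trans (min_le_left _ _)
  have hκ3 : κ ≤ κ₀ := by
    rw [hκ]
    exact (min_le_right _ _).trans (min_le_right _ _)
  obtain ⟨c₂, p₂, hc₂, hM⟩ := hMEH ε κ (4 * D + 64 * D * 5 ^ d + 16) hε hκ0 (by positivity)
  refine ⟨κ₀, min δ₁ c₂, max p₁ (max p₂ 2), hκ₀0, hκ₀ε, lt_min hδ₁ hc₂, ?_⟩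
  intro p _ hp χ P J cl M X B β hχ hβ hsys hX hPJ hcl hdis hcell
  have hp1 : p₁ < p := (le_max_left _ _).trans_lt hp
  have hp2 : p₂ < p := ((le_max_left _ _).trans (le_max_right _ _)).trans_lt hp
  have hp3 : 2 < p := ((le_max_right _ _).trans (le_max_right _ _)).trans_lt hp
  have hP : (1 : ℝ) ≤ p := by exact_mod_cast (Fact.out : p.Prime).one_lt.le
  have hP0 : (0 : ℝ) < p := by linarith
  have hrhs : 0 ≤ Real.sqrt (p * (X.card * B.card)) + (X.card : ℝ) * B.card := by positivity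
  obtain ⟨th, hth⟩ : ∃ th : ℝ, th = (p : ℝ) ^ (-κ₀) := ⟨_, rfl⟩
  rw [← hth] at hcl hdis
  have hth0 : 0 < th := by rw [hth]; positivity
  have hth1 : th ≤ 1 := by
    rw [hth]
    exact Real.rpow_le_one_of_one_le_of_nonpos hP (by linarith)
  rcases B.eq_empty_or_nonempty with hB | hB
  · have h0 : ∑ x ∈ X, ‖Pool.Agent.OT.FB χ B β x‖ = 0 := by
      refine Finset.sum_eq_zero fun x _ => ?_
      rw [hB]
      simp [Pool.Agent.OT.FB]
    rw [h0]
    positivity
  have hJn : J.Nonempty := by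
    obtain ⟨b, hb⟩ := hB
    exact ⟨cl b, (hcl b hb).1⟩
  have hJ1 : (1 : ℝ) ≤ (J.card : ℝ) := by exact_mod_cast hJn.card_pos
  have hP1le : ((P 1).card : ℝ) ≤ (p : ℝ) ^ (1 - ε) := by
    refine le_trans ?_ hPJ
    exact le_mul_of_one_le_right (Nat.cast_nonneg _) hJ1
  have hP1le2 : ((P 1).card : ℝ) ≤ (p : ℝ) ^ (1 - ε / 2) :=
    hP1le.trans (Real.rpow_le_rpow_of_exponent_le hP (by linarith))
  have hhalf : P (1 / 2) ⊆ P 1 := hsys.mono (by norm_num)
  have hthP : P th ⊆ P 1 := hsys.mono hth1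
  have hdbl : ∀ t : ℝ, 0 < t → (((P t + P t).card : ℕ) : ℝ) ≤ 5 ^ d * ((P t).card : ℝ) := by
    intro t ht
    have h1 : P t + P t ⊆ P (2 * t) := by
      intro z hz
      obtain ⟨x, hx, y, hy, rfl⟩ := Finset.mem_add.1 hz
      have := hsys.add_mem hx hy
      rwa [← two_mul] at this
    have h2 := (hPKC.2.2 p d P hsys (2 * t) t (by positivity) ht).1
    have h3 : (1 : ℝ) + 2 * (2 * t) / t = 5 := by
      field_simp
      norm_num
    rw [h3] at h2
    refine le_trans ?_ h2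
    exact_mod_cast Finset.card_le_card h1
  rcases le_or_gt (J.card : ℝ) ((p : ℝ) ^ δ₁) with hJd | hJd
  · -- few cells
    obtain ⟨α, hα, hsum⟩ := UNH_phase X (fun x => Pool.Agent.OT.FB χ B β x)
    have h1 := hFIT p hp1 (P (1 / 2)) (P th) {0} J X B (hdbl _ (by norm_num)) (hdbl _ hth0)
      (le_trans (by exact_mod_cast Finset.card_le_card hhalf) hP1le2)
      (le_trans (by exact_mod_cast Finset.card_le_card hthP) hP1le2)
      (by
        rw [card_singleton, Nat.cast_one]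
        exact Real.one_le_rpow hP hδ₁.le) hJd
      (by
        intro x hx
        exact Finset.mem_add.2 ⟨0, mem_singleton_self 0, x, hX hx, zero_add x⟩)
      (by
        intro b hb
        exact Finset.mem_add.2 ⟨cl b, (hcl b hb).1, b - cl b, (hcl b hb).2, by ring⟩)
      χ hχ α β hα hβ
    have h2 : ∑ x ∈ X, ‖Pool.Agent.OT.FB χ B β x‖ = ‖∑ a ∈ X, ∑ b ∈ B, α a * β b * χ (a + b)‖ := by
      rw [hsum]
      congr 1
      refine Finset.sum_congr rfl fun x _ => ?_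
      unfold Pool.Agent.OT.FB
      rw [Finset.mul_sum]
      refine Finset.sum_congr rfl fun b _ => ?_
      ring
    rw [h2]
    refine h1.trans (mul_le_mul_of_nonneg_right ?_ hrhs)
    exact Real.rpow_le_rpow_of_exponent_le hP (neg_le_neg (min_le_left _ _))
  · -- many cells
    have hBJ : (B.card : ℝ) ≤ (p : ℝ) ^ (1 - ε) := by
      refine le_trans ?_ hPJ
      have : B.card ≤ (P 1).card * J.card := by
        rw [← UNH_sum J B cl fun b hb => (hcl b hb).1, mul_comm, ← smul_eq_mul]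
        exact Finset.sum_le_card_nsmul _ _ _ fun y _ =>
          (UNH_cell (P th) B cl (fun b hb => (hcl b hb).2) y).trans (Finset.card_le_card hthP)
      exact_mod_cast this
    have hXN : (X.card : ℝ) ≤ (p : ℝ) ^ (1 - ε) := by
      refine le_trans ?_ hP1le
      exact_mod_cast Finset.card_le_card (hX.trans hhalf)
    obtain ⟨hSn, -, hSD, -, hpS, hps, hV⟩ := hD p hp3.ne' P hsys
    have hVsub : P (th / 2) ⊆ P 1 := hsys.mono (by linarith)
    have hVn : (P (th / 2)).Nonempty := ⟨0, hsys.zero_mem (by positivity)⟩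
    have h1 := hM p hp2 χ (P (1 / 2)) X B β hχ hβ hX hXN (Or.inl hBJ) (by
      intro hB1 _
      have hang : ∀ b ∈ B, ∀ s ∈ Sk P (1 / 16), ‖ps (s * (b - cl b)) - 1‖ ≤ 2 * th := by
        intro b hb s hs
        have hinv : 1 ≤ 1 / th := by
          rw [le_div_iff₀ hth0, one_mul]
          exact hth1
        obtain ⟨m, hm⟩ : ∃ m : ℕ, m = ⌊1 / th⌋₊ := ⟨_, rfl⟩
        have hm0 : 0 < m := by
          rw [hm]
          exact Nat.floor_pos.2 hinv
        have hmle : (m : ℝ) ≤ 1 / th := by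
          rw [hm]
          exact Nat.floor_le (by positivity)
        have hm1 : (1 : ℝ) ≤ m := by exact_mod_cast hm0
        have hmlt : 1 / th < m + 1 := by
          rw [hm]
          exact Nat.lt_floor_add_one _
        have hthm : th ≤ 1 / (m : ℝ) := by
          rw [le_div_iff₀ (by linarith)]
          rw [le_div_iff₀ hth0] at hmle
          linarith
        have h2 := hANG p d P m s (b - cl b) hsys hm0 hs (hsys.mono hthm (hcl b hb).2)
        refine h2.trans ?_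
        rw [div_le_iff₀ (by linarith)]
        rw [div_lt_iff₀ hth0] at hmlt
        nlinarith
      have h2 := hD1S p χ (Sk P (1 / 16)) (P (1 / 2)) J (P (th / 2)) cl B β D (2 * th) hχ hβ hSn hVn
        (by linarith) (by positivity) (fun x hx => hps x (hhalf hx)) (fun b hb => (hcl b hb).1) hang hdis
        (hV _ hVsub) hSD
      refine h2.trans ?_
      have hMR : (M : ℝ) * J.card ≤ B.card := by
        have : M * J.card ≤ B.card := by
          rw [← UNH_sum J B cl fun b hb => (hcl b hb).1, mul_comm, ← smul_eq_mul]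
          exact Finset.card_nsmul_le_sum _ _ _ fun j hj => (hcell j hj).1
        exact_mod_cast this
      have hSj : ∑ y ∈ J, ((BY B cl y).card : ℝ) ^ 2 ≤ 2 * (M : ℝ) * B.card := by
        have e1 : (B.card : ℝ) = ∑ y ∈ J, ((BY B cl y).card : ℝ) := by
          rw [← UNH_sum J B cl fun b hb => (hcl b hb).1]
          push_cast
          rfl
        rw [e1, Finset.mul_sum]
        refine Finset.sum_le_sum fun j hj => ?_
        rw [pow_two]
        have e2 : ((BY B cl j).card : ℝ) ≤ 2 * M := by exact_mod_cast (hcell j hj).2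
        exact mul_le_mul_of_nonneg_right e2 (Nat.cast_nonneg _)
      exact UNH_num p (P 1).card (Sk P (1 / 16)).card J.card (P (th / 2)).card B.card M
        (∑ y ∈ J, ((BY B cl y).card : ℝ) ^ 2) D th κ κ₀ δ₁ ε d hP (by exact_mod_cast hSn.card_pos) hJ1
        (by exact_mod_cast hVn.card_pos) (Nat.cast_nonneg _) hD1 (Nat.cast_nonneg _) hth hκ₀0 hpS hPJ
        (hPKC.2.2 p d P hsys 1 (th / 2) (by norm_num) (by positivity)).1 hMR hSj
        (Finset.sum_nonneg fun y _ => by positivity) hJd.le hB1 (by linarith) (by linarith) (by linarith) hκ₀δ)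
    refine h1.trans (mul_le_mul_of_nonneg_right ?_ hrhs)
    exact Real.rpow_le_rpow_of_exponent_le hP (neg_le_neg (min_le_right _ _))

end Pool.Agent.OG
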