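import Pool.Agent.helper64.OT.SpecW

/-!
# ot:RRN (MP_f6e9a2_nt): the norm of `g(x)`
-/

set_option autoImplicit false

namespace Pool.Agent.OT

open Finset Polynomial Pool.Agent.helper82.Weil Pool.Agent.helper82.KL
open IntermediateField

theorem RRN_gen (hRRE : RRE_stmt) (p : ℕ) [Fact p.Prime] (K : Type) [Field K] [Fintype K]
    [Algebra (ZMod p) K] (x : K) (g : (ZMod p)[X]) :
    Algebra.norm (ZMod p) (aeval (AdjoinSimple.gen (ZMod p) x) g) = resultant (minpoly (ZMod p) x) g := by
  classical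
  have hfin : FiniteDimensional (ZMod p) K := Module.Finite.of_finite
  have hint : IsIntegral (ZMod p) x := Algebra.IsIntegral.isIntegral x
  set E := AlgebraicClosure (ZMod p) with hE
  apply (algebraMap (ZMod p) E).injective
  rw [hRRE p E (minpoly (ZMod p) x) g (minpoly.monic hint) (IsAlgClosed.splits _),
    Algebra.norm_eq_prod_embeddings (ZMod p) E]
  have e1 : ∀ σ : (ZMod p)⟮x⟯ →ₐ[ZMod p] E, σ (aeval (AdjoinSimple.gen (ZMod p) x) g) =
      aeval ((algHomAdjoinIntegralEquiv (ZMod p) hint σ : { b // b ∈ (minpoly (ZMod p) x).aroots E }) : E) g := by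
    intro σ
    rw [← Polynomial.aeval_algHom_apply]
    congr 1
  rw [Fintype.prod_equiv (algHomAdjoinIntegralEquiv (ZMod p) hint)
    (fun σ => σ (aeval (AdjoinSimple.gen (ZMod p) x) g))
    (fun b : { b // b ∈ (minpoly (ZMod p) x).aroots E } => aeval (b : E) g) e1]
  rw [Finset.prod_mem_multiset ((minpoly (ZMod p) x).aroots E) _ (fun b => aeval b g) (fun _ => rfl),
    Finset.prod_eq_multiset_prod, Multiset.toFinset_val, Multiset.dedup_eq_self.mpr]
  have hs : (minpoly (ZMod p) x).Separable := Algebra.IsSeparable.isSeparable (ZMod p) x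
  exact nodup_roots hs.map

theorem RRN (hRRE : RRE_stmt) : RRN_stmt := by
  intro p _ K _ _ _ x g
  have hfin : FiniteDimensional (ZMod p) K := Module.Finite.of_finite
  have hint : IsIntegral (ZMod p) x := Algebra.IsIntegral.isIntegral x
  have h1 : aeval x g = algebraMap (ZMod p)⟮x⟯ K (aeval (AdjoinSimple.gen (ZMod p) x) g) := by
    rw [← aeval_algebraMap_apply, AdjoinSimple.algebraMap_gen]
  have h2 : Module.finrank (ZMod p) K / (minpoly (ZMod p) x).natDegree =
      Module.finrank (ZMod p)⟮x⟯ K := by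
    rw [← adjoin.finrank hint, ← Module.finrank_mul_finrank (ZMod p) (ZMod p)⟮x⟯ K]
    exact Nat.mul_div_cancel_left _ Module.finrank_pos
  rw [h2, h1, ← Algebra.norm_norm (S := (ZMod p)⟮x⟯), Algebra.norm_algebraMap, map_pow,
    RRN_gen hRRE p K x g]

end Pool.Agent.OT
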